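import Pool.Agent.Helper87.AGConn

/-!
# A displaceable fixed torus of an anti-symplectic involution

Idea: `L = {|z| = |w| = 1}` is a Lagrangian torus of `ℂ²`; near it `|z|² ↦ 2 - |z|²`,
`|w|² ↦ 2 - |w|²` is an anti-symplectic involution fixing `L`. Two copies of an open set `W ⊂ ℂ²`
are glued along a neighbourhood `N` of `L` by this involution (the second copy with the opposite
form); `W` is `ℂ²` without closed walls, which make the glued space Hausdorff and are low enough
for a compactly supported Hamiltonian isotopy of `W` to carry `L` over them. The swap of the two
copies is the involution.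
-/

namespace Pool.Agent.Results.MP_718994_gt.Displaced

open Pool.Agent.Helper87.AG

/-- There are a connected Hausdorff second countable symplectic four-manifold, an anti-symplectic
involution whose fixed point set is a two-torus, and a compactly supported (even autonomous)
Hamiltonian whose time-one map moves the fixed point set off itself. -/
theorem result : ∃ (M : Type) (_ : TopologicalSpace M) (A : DarbouxAtlas M) (τ : M → M)
    (H : M → ℝ) (φ : ℝ → M → M),
    T2Space M ∧ SecondCountableTopology M ∧ ConnectedSpace M ∧
    IsAntisymplecticInvolution A τ ∧
    Nonempty (Function.fixedPoints τ ≃ₜ Circle × Circle) ∧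
    IsHamiltonianFlow A H φ ∧
    Disjoint (Function.fixedPoints τ) (φ 1 '' Function.fixedPoints τ) :=
  ⟨Dc.M, inferInstance, Dc.atlas, Dc.swap, Fd.H, Fd.φ, inferInstance, inferInstance,
    inferInstance, Dc.swap_anti, ⟨torHomeo.symm⟩, Fd.isHamiltonianFlow, displaced⟩

end Pool.Agent.Results.MP_718994_gt.Displaced
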